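import Pool.Agent.H54.Dense.Chain

/-!
# MP_75f39d_co, DenseFamilies: few points

`t3_le`: if no subset of `V` is a core, then at most `|V| - 2` members inside `V` have three elements.
`twins4`: with at most four points there are twins. `low5`, `low6`, `low7`: lower bounds of `sg` for five, six and seven points.
-/

set_option autoImplicit false

namespace Pool.Agent.H54.Dense

open Finset Pool.Agent.H28.DF Pool.Agent.H78.UC

variable {α : Type*} [DecidableEq α]

theorem two_pairs {N P Q : Finset α} (hP : P ⊆ N) (hQ : Q ⊆ N) (hP2 : P.card = 2)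
    (hQ2 : Q.card = 2) (hPQ : P ≠ Q) :
    2 ^ N.card ≤ 3 * (N.powerset.filter fun Y => P ⊆ Y ∨ Q ⊆ Y).card := by
  have e : (N.powerset.filter fun Y => P ⊆ Y ∨ Q ⊆ Y) = Icc P N ∪ Icc Q N := by
    ext Y
    rw [mem_filter, mem_powerset, mem_union, mem_Icc, mem_Icc]
    constructor
    · rintro ⟨h1, h2 | h2⟩
      · exact Or.inl ⟨h2, h1⟩
      · exact Or.inr ⟨h2, h1⟩
    · rintro (⟨h1, h2⟩ | ⟨h1, h2⟩)
      · exact ⟨h2, Or.inl h1⟩
      · exact ⟨h2, Or.inr h1⟩
  have e2 : Icc P N ∩ Icc Q N = Icc (P ∪ Q) N := by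
    ext Y
    rw [mem_inter, mem_Icc, mem_Icc, mem_Icc]
    constructor
    · rintro ⟨⟨h1, h2⟩, h3, _⟩
      exact ⟨union_subset h1 h3, h2⟩
    · rintro ⟨h1, h2⟩
      exact ⟨⟨subset_union_left.trans h1, h2⟩, subset_union_right.trans h1, h2⟩
  have hPQN : P ∪ Q ⊆ N := union_subset hP hQ
  have h3 : 3 ≤ (P ∪ Q).card := by
    by_contra hlt
    have h4 : P = P ∪ Q := eq_of_subset_of_card_le subset_union_left (by omega)
    have h5 : Q = P ∪ Q := eq_of_subset_of_card_le subset_union_right (by omega)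
    exact hPQ (h4.trans h5.symm)
  have hN : 3 ≤ N.card := h3.trans (card_le_card hPQN)
  have c1 := card_union_add_card_inter (Icc P N) (Icc Q N)
  rw [e2, card_Icc_finset hP, card_Icc_finset hQ, card_Icc_finset hPQN, hP2, hQ2] at c1
  rw [e]
  have h6 : 2 ^ (N.card - (P ∪ Q).card) ≤ 2 ^ (N.card - 3) :=
    Nat.pow_le_pow_right (by norm_num) (by omega)
  have h7 : 2 ^ N.card = 8 * 2 ^ (N.card - 3) := by
    conv_lhs => rw [show N.card = (N.card - 3) + 3 by omega]
    rw [pow_add]
    ring
  have h8 : 2 ^ (N.card - 2) = 2 * 2 ^ (N.card - 3) := by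
    conv_lhs => rw [show N.card - 2 = (N.card - 3) + 1 by omega]
    rw [pow_add]
    ring
  omega

/-- Few members with three elements. -/
theorem t3_le {A : Finset (Finset α)} {V : Finset α} (hV : ∀ S ⊆ V, ¬ IsCore A S)
    (h2 : 2 ≤ V.card) : ((ins A V).filter fun T => T.card = 3).card + 2 ≤ V.card := by
  obtain ⟨n, hn⟩ : ∃ n, V.card = n + 2 := ⟨V.card - 2, by omega⟩
  rw [hn]
  clear h2
  induction n generalizing V with
  | zero =>
    have h : ((ins A V).filter fun T => T.card = 3) = ∅ := by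
      rw [filter_eq_empty_iff]
      intro T hT h3
      have h4 := card_le_card (mem_filter.1 hT).2
      omega
    rw [h, card_empty]
  | succ n ih =>
    obtain ⟨k, hk, hlt, -, hc⟩ := exists_peel (n := n + 2) hn (hV V (Subset.refl V))
    have h1 := ih (V := V.erase k) (fun S hS => hV S (hS.trans (erase_subset k V))) hc
    have h2 : (((ins A V).filter fun T => T.card = 3).filter fun T => k ∈ T).card ≤ 1 := by
      rw [card_le_one]
      intro T hT T' hT'
      by_contra hne
      obtain ⟨g1, g2⟩ := mem_filter.1 hT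
      obtain ⟨g3, g4⟩ := mem_filter.1 g1
      obtain ⟨g5, g6⟩ := mem_filter.1 g3
      obtain ⟨g1', g2'⟩ := mem_filter.1 hT'
      obtain ⟨g3', g4'⟩ := mem_filter.1 g1'
      obtain ⟨g5', g6'⟩ := mem_filter.1 g3'
      have h5 := two_pairs (N := V.erase k) (P := T.erase k) (Q := T'.erase k)
        (erase_subset_erase k g6) (erase_subset_erase k g6')
        (by rw [card_erase_of_mem g2, g4]) (by rw [card_erase_of_mem g2', g4'])
        (fun h => hne (by rw [← insert_erase g2, h, insert_erase g2']))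
      have h6 : ((V.erase k).powerset.filter fun Y => T.erase k ⊆ Y ∨ T'.erase k ⊆ Y).card ≤
          (Hs A V k).card := by
        refine card_le_card fun Y hY => ?_
        obtain ⟨k1, k2⟩ := mem_filter.1 hY
        refine mem_filter.2 ⟨k1, ?_⟩
        rcases k2 with k2 | k2
        · refine ⟨T, g5, g2, ?_⟩
          rw [← insert_erase g2]
          exact insert_subset_insert k k2
        · refine ⟨T', g5', g2', ?_⟩
          rw [← insert_erase g2']
          exact insert_subset_insert k k2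
      rw [hc] at h5
      omega
    have h3 := card_filter_add_card_filter_not (s := (ins A V).filter fun T => T.card = 3)
      (fun T => k ∈ T)
    have h4 : (((ins A V).filter fun T => T.card = 3).filter fun T => ¬ k ∈ T).card ≤
        ((ins A (V.erase k)).filter fun T => T.card = 3).card := by
      refine card_le_card fun T hT => ?_
      obtain ⟨g1, g2⟩ := mem_filter.1 hT
      obtain ⟨g3, g4⟩ := mem_filter.1 g1
      obtain ⟨g5, g6⟩ := mem_filter.1 g3
      exact mem_filter.2 ⟨mem_filter.2 ⟨g5, subset_erase.2 ⟨g6, g2⟩⟩, g4⟩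
    omega

/-- Twins with three or four points. -/
theorem twins4 {A : Finset (Finset α)} {V : Finset α} (hV : ∀ S ⊆ V, ¬ IsCore A S)
    (h3 : ∀ T ∈ ins A V, T.Nonempty → 3 ≤ T.card) (hc : V.card = 3 ∨ V.card = 4) :
    ∃ x ∈ V, ∃ y ∈ V, x ≠ y ∧ ∀ T ∈ ins A V, (x ∈ T ↔ y ∈ T) := by
  have ht := t3_le hV (by omega)
  have hD : (((ins A V).filter fun T => T.card = 3).biUnion fun T => V \ T).card ≤
      ((ins A V).filter fun T => T.card = 3).card * (V.card - 3) := by
    refine card_biUnion_le_card_mul _ _ _ fun T hT => ?_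
    obtain ⟨g1, g2⟩ := mem_filter.1 hT
    rw [card_sdiff_of_subset (mem_filter.1 g1).2, g2]
  have hDV : (((ins A V).filter fun T => T.card = 3).biUnion fun T => V \ T) ⊆ V := by
    rw [biUnion_subset]
    exact fun T _ => sdiff_subset
  have h1 : 1 < (V \ (((ins A V).filter fun T => T.card = 3).biUnion fun T => V \ T)).card := by
    rw [card_sdiff_of_subset hDV]
    rcases hc with hc | hc
    · rw [hc] at hD ⊢
      omega
    · rw [hc] at hD ht ⊢
      omega
  obtain ⟨x, hx, y, hy, hxy⟩ := one_lt_card.1 h1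
  rw [mem_sdiff] at hx hy
  refine ⟨x, hx.1, y, hy.1, hxy, fun T hT => ?_⟩
  have hTV := (mem_filter.1 hT).2
  rcases T.eq_empty_or_nonempty with hT0 | hT0
  · rw [hT0]
    simp
  · have h4 := h3 T hT hT0
    have h5 : ∀ z, z ∈ V → z ∉ (((ins A V).filter fun T => T.card = 3).biUnion fun T => V \ T) →
        z ∈ T := by
      intro z hz hzD
      by_contra hzT
      by_cases h6 : T.card = 3
      · exact hzD (mem_biUnion.2 ⟨T, mem_filter.2 ⟨hT, h6⟩, mem_sdiff.2 ⟨hz, hzT⟩⟩)
      · have h7 := card_le_card hTV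
        have h8 : T = V := eq_of_subset_of_card_le hTV (by omega)
        exact hzT (h8 ▸ hz)
    exact ⟨fun _ => h5 y hy.1 hy.2, fun _ => h5 x hx.1 hx.2⟩

theorem sg_sum {F : Finset (Finset α)} {V : Finset α} (hFV : ∀ T ∈ F, T ⊆ V) :
    sg F V = ∑ T ∈ F, (2 * (T.card : ℤ) - (V.card : ℤ)) := by
  have h1 : ∑ x ∈ V, (fr F x : ℤ) = ∑ T ∈ F, (T.card : ℤ) := by
    rw [← DFa_inc, card_filter, sum_product]
    push_cast
    refine sum_congr rfl fun T hT => ?_
    have h2 : T = V.filter fun x => x ∈ T := by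
      ext x
      rw [mem_filter]
      exact ⟨fun h => ⟨hFV T hT h, h⟩, fun h => h.2⟩
    conv_rhs => rw [h2, card_filter]
    push_cast
    rfl
  unfold sg
  rw [sum_sub_distrib, ← mul_sum, h1, sum_sub_distrib, ← mul_sum]
  simp only [sum_const, nsmul_eq_mul]
  ring

/-- Lower bound of a sum over the members. -/
theorem low_sum {F : Finset (Finset α)} {V : Finset α} (c : ℤ) (hc6 : 6 ≤ c) (hc8 : c ≤ 8)
    (hV4 : 4 ≤ V.card) (hFV : ∀ T ∈ F, T ⊆ V) (h3 : ∀ T ∈ F, T.Nonempty → 3 ≤ T.card)
    (htop : V ∈ F) :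
    2 * (V.card : ℤ) - 2 * c - (c - 6) * ((F.filter fun T => T.card = 3).card : ℤ) ≤
      ∑ T ∈ F, (2 * (T.card : ℤ) - c) := by
  have h1 : ∀ T ∈ F, (if T = ∅ then -c else 0) + (if T = V then 2 * (V.card : ℤ) - c else 0) -
      (c - 6) * (if T.card = 3 then 1 else 0) ≤ 2 * (T.card : ℤ) - c := by
    intro T hT
    rcases T.eq_empty_or_nonempty with hT0 | hT0
    · have h5 : (∅ : Finset α) ≠ V := by
        rintro rfl
        simp at hV4
      rw [hT0, if_pos rfl, if_neg h5]
      simp
    · have h4 := h3 T hT hT0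
      rw [if_neg hT0.ne_empty]
      by_cases h5 : T = V
      · rw [h5, if_pos rfl, if_neg (by omega)]
        simp
      · rw [if_neg h5]
        by_cases h6 : T.card = 3
        · rw [if_pos h6, h6]
          push_cast
          linarith
        · rw [if_neg h6]
          have h7 : (4 : ℤ) ≤ (T.card : ℤ) := by
            have : 4 ≤ T.card := by omega
            exact_mod_cast this
          linarith
  have h2 := sum_le_sum h1
  refine le_trans ?_ h2
  rw [sum_sub_distrib, sum_add_distrib, ← mul_sum, sum_ite_eq', sum_ite_eq', if_pos htop]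
  have h4 : ∑ T ∈ F, (if T.card = 3 then (1 : ℤ) else 0) =
      ((F.filter fun T => T.card = 3).card : ℤ) := by
    rw [card_filter]
    push_cast
    rfl
  rw [h4]
  split_ifs <;> linarith

/-- The three lower bounds. -/
theorem low567 {A F : Finset (Finset α)} {V : Finset α} (hV : ∀ S ⊆ V, ¬ IsCore A S)
    (h3 : ∀ T ∈ ins A V, T.Nonempty → 3 ≤ T.card) (hFA : F ⊆ A) (hFV : ∀ T ∈ F, T ⊆ V)
    (htop : F.Nonempty → V ∈ F) :
    (V.card = 5 → (F.card : ℤ) - 2 ≤ sg F V) ∧ (V.card = 6 → 2 * (F.card : ℤ) - 12 ≤ sg F V) ∧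
      (V.card = 7 → (F.card : ℤ) - 12 ≤ sg F V) := by
  rw [sg_sum hFV]
  rcases F.eq_empty_or_nonempty with hF | hF
  · rw [hF]
    simp
  have hins : ∀ T ∈ F, T ∈ ins A V := fun T hT => mem_filter.2 ⟨hFA hT, hFV T hT⟩
  have h4 : ∀ T ∈ F, T.Nonempty → 3 ≤ T.card := fun T hT => h3 T (hins T hT)
  have h5 : (F.filter fun T => T.card = 3).card ≤ ((ins A V).filter fun T => T.card = 3).card := by
    refine card_le_card fun T hT => ?_
    obtain ⟨g1, g2⟩ := mem_filter.1 hT
    exact mem_filter.2 ⟨hins T g1, g2⟩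
  have h6 : ∀ c d : ℤ, ∑ T ∈ F, (2 * (T.card : ℤ) - d) =
      ∑ T ∈ F, (2 * (T.card : ℤ) - c) + (c - d) * (F.card : ℤ) := by
    intro c d
    rw [sum_sub_distrib, sum_sub_distrib]
    simp only [sum_const, nsmul_eq_mul]
    ring
  refine ⟨fun hc => ?_, fun hc => ?_, fun hc => ?_⟩
  · have h7 := low_sum (F := F) (V := V) 6 (by norm_num) (by norm_num) (by omega) hFV h4 (htop hF)
    rw [h6 6, hc]
    rw [hc] at h7
    push_cast at h7 ⊢
    linarith
  · have h7 := low_sum (F := F) (V := V) 8 (by norm_num) (by norm_num) (by omega) hFV h4 (htop hF)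
    have h8 := t3_le hV (by omega)
    have h9 : ((F.filter fun T => T.card = 3).card : ℤ) ≤ 4 := by
      have : (F.filter fun T => T.card = 3).card ≤ 4 := by omega
      exact_mod_cast this
    rw [h6 8, hc]
    rw [hc] at h7
    push_cast at h7 ⊢
    linarith
  · have h7 := low_sum (F := F) (V := V) 8 (by norm_num) (by norm_num) (by omega) hFV h4 (htop hF)
    have h8 := t3_le hV (by omega)
    have h9 : ((F.filter fun T => T.card = 3).card : ℤ) ≤ 5 := by
      have : (F.filter fun T => T.card = 3).card ≤ 5 := by omega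
      exact_mod_cast this
    rw [h6 8, hc]
    rw [hc] at h7
    push_cast at h7 ⊢
    linarith

end Pool.Agent.H54.Dense
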