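import Pool.Agent.H28.DF.Cb

/-!
# A union-closed family inside a sparse up-set

`F` a union-closed family of subsets of `V`, contained in the up-set `H`.  For a member `Y` let `v Y` be
the number of the `j ∈ V`, `j ∉ Y`, with `Y ∪ {j} ∉ F`.  Then `∑ (v² - 2v + 2) ≤ sg F V + ...`:
two such points `j, j'` of `Y` either give an element `Y ∪ {j, j'}` of `H` whose largest member is `Y`,
or the member `Y ∪ {j, j'}` with two missing lower neighbours.
-/

set_option autoImplicit false

namespace Pool.Agent.H54.Dense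

open Finset Pool.Agent.H78.UC Pool.Agent.H28.DF

variable {α : Type*} [DecidableEq α]

/-- The points `j ∉ Y` of `V` such that `Y ∪ {j}` is not a member. -/
def qv (F : Finset (Finset α)) (V Y : Finset α) : Finset α := (V \ Y).filter fun j => insert j Y ∉ F

theorem mem_qv {F : Finset (Finset α)} {V Y : Finset α} {j : α} :
    j ∈ qv F V Y ↔ (j ∈ V ∧ j ∉ Y) ∧ insert j Y ∉ F := by
  simp [qv]

theorem pm_one {F : Finset (Finset α)} (hF : UnC F) {V Y : Finset α} (hY : Y ∈ F) {j : α}
    (hj : insert j Y ∉ F) : pm F (insert j Y) = Y := by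
  refine pm_eq hY (subset_insert _ _) fun w hw hwX => ?_
  have hu := hF w hw Y hY
  have hjw : j ∉ w := by
    intro h
    apply hj
    have e : w ∪ Y = insert j Y := by
      apply Subset.antisymm
      · exact union_subset hwX (subset_insert _ _)
      · exact insert_subset (mem_union_left _ h) subset_union_right
    rwa [e] at hu
  intro x hx
  rcases mem_insert.1 (hwX hx) with h | h
  · exact absurd (h ▸ hx) hjw
  · exact h

theorem pm_two {F : Finset (Finset α)} (hF : UnC F) {Y : Finset α} (hY : Y ∈ F) {i j : α}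
    (hi : insert i Y ∉ F) (hj : insert j Y ∉ F) (hij : insert i (insert j Y) ∉ F) :
    pm F (insert i (insert j Y)) = Y := by
  refine pm_eq hY ((subset_insert _ _).trans (subset_insert _ _)) fun w hw hwX => ?_
  have hu := hF w hw Y hY
  have hiw : i ∉ w := by
    intro h
    by_cases h' : j ∈ w
    · apply hij
      have e : w ∪ Y = insert i (insert j Y) := by
        apply Subset.antisymm
        · exact union_subset hwX ((subset_insert _ _).trans (subset_insert _ _))
        · exact insert_subset (mem_union_left _ h)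
            (insert_subset (mem_union_left _ h') subset_union_right)
      rwa [e] at hu
    · apply hi
      have e : w ∪ Y = insert i Y := by
        apply Subset.antisymm
        · refine union_subset (fun x hx => ?_) (subset_insert _ _)
          rcases mem_insert.1 (hwX hx) with h1 | h1
          · exact mem_insert.2 (Or.inl h1)
          · rcases mem_insert.1 h1 with h2 | h2
            · exact absurd (h2 ▸ hx) h'
            · exact mem_insert_of_mem h2
        · exact insert_subset (mem_union_left _ h) subset_union_right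
      rwa [e] at hu
  have hjw : j ∉ w := by
    intro h
    apply hj
    have e : w ∪ Y = insert j Y := by
      apply Subset.antisymm
      · refine union_subset (fun x hx => ?_) (subset_insert _ _)
        rcases mem_insert.1 (hwX hx) with h1 | h1
        · exact absurd (h1 ▸ hx) hiw
        · exact h1
      · exact insert_subset (mem_union_left _ h) subset_union_right
    rwa [e] at hu
  intro x hx
  rcases mem_insert.1 (hwX hx) with h | h
  · exact absurd (h ▸ hx) hiw
  · rcases mem_insert.1 h with h1 | h1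
    · exact absurd (h1 ▸ hx) hjw
    · exact h1

theorem pm_self {F : Finset (Finset α)} {Y : Finset α} (hY : Y ∈ F) : pm F Y = Y :=
  pm_eq hY (Subset.refl _) fun _ _ h => h

theorem insert_right_inj {Y : Finset α} {i j : α} (hi : i ∉ Y) (h : insert i Y = insert j Y) :
    i = j := by
  have h1 : i ∈ insert j Y := h ▸ mem_insert_self i Y
  rcases mem_insert.1 h1 with h2 | h2
  · exact h2
  · exact absurd h2 hi

theorem card_bd (F : Finset (Finset α)) (V : Finset α) :
    (Pool.Agent.H51.UC.bd V F).card = ∑ Y ∈ F, (qv F V Y).card := by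
  have h1 : (Pool.Agent.H51.UC.bd V F).card = (F.sigma fun Y => qv F V Y).card := by
    refine card_bij' (fun e _ => ⟨e.1, e.2⟩) (fun e _ => (e.1, e.2)) ?_ ?_ ?_ ?_
    · intro e he
      have h := Pool.Agent.H51.UC.mem_bd.1 he
      exact mem_sigma.2 ⟨h.1.1, mem_qv.2 ⟨⟨h.1.2, h.2.1⟩, h.2.2⟩⟩
    · intro e he
      have h := mem_sigma.1 he
      have h' := mem_qv.1 h.2
      exact Pool.Agent.H51.UC.mem_bd.2 ⟨⟨h.1, h'.1.1⟩, h'.1.2, h'.2⟩
    · intro e _
      rfl
    · intro e _
      rfl
  rw [h1, card_sigma]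

/-- The ranks of the elements of `H`. -/
theorem rank_count {V : Finset α} {F H : Finset (Finset α)} (hHV : ∀ Y ∈ H, Y ⊆ V)
    (hup : ∀ Y ∈ H, ∀ Z ⊆ V, Y ⊆ Z → Z ∈ H) (hFH : F ⊆ H) (hF : UnC F) :
    2 * F.card + 2 * ∑ Y ∈ F, (qv F V Y).card +
      ∑ Y ∈ F, ((qv F V Y).offDiag.filter fun e => insert e.1 (insert e.2 Y) ∉ F).card ≤
      2 * H.card := by
  have r0 : F.card ≤ (H.filter fun X => (X \ pm F X).card = 0).card := by
    refine card_le_card fun Y hY => mem_filter.2 ⟨hFH hY, ?_⟩
    rw [pm_self hY, sdiff_self, bot_eq_empty, card_empty]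
  have r1 : ∑ Y ∈ F, (qv F V Y).card ≤ (H.filter fun X => (X \ pm F X).card = 1).card := by
    rw [← card_sigma]
    refine card_le_card_of_injOn (fun e => insert e.2 e.1) ?_ ?_
    · intro e he
      have h := mem_sigma.1 (mem_coe.1 he)
      have h' := mem_qv.1 h.2
      refine mem_coe.2 (mem_filter.2 ⟨?_, ?_⟩)
      · exact hup _ (hFH h.1) _ (insert_subset h'.1.1 (hHV _ (hFH h.1))) (subset_insert _ _)
      · rw [pm_one (V := V) hF h.1 h'.2, insert_sdiff_cancel h'.1.2, card_singleton]
    · rintro ⟨Y, i⟩ he ⟨Z, j⟩ he' hee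
      have h := mem_sigma.1 (mem_coe.1 he)
      have h' := mem_qv.1 h.2
      have g := mem_sigma.1 (mem_coe.1 he')
      have g' := mem_qv.1 g.2
      have hee' : insert i Y = insert j Z := hee
      have k1 : pm F (insert i Y) = Y := pm_one (V := V) hF h.1 h'.2
      have k2 : pm F (insert j Z) = Z := pm_one (V := V) hF g.1 g'.2
      have e1 : Y = Z := k1.symm.trans ((congrArg (pm F) hee').trans k2)
      subst e1
      have e2 : i = j := insert_right_inj h'.1.2 hee'
      subst e2
      rfl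
  have r2 : ∑ Y ∈ F, ((qv F V Y).offDiag.filter fun e => insert e.1 (insert e.2 Y) ∉ F).card ≤
      2 * (H.filter fun X => (X \ pm F X).card = 2).card := by
    have e1 : 2 * (H.filter fun X => (X \ pm F X).card = 2).card =
        ((H.filter fun X => (X \ pm F X).card = 2).sigma fun X => (X \ pm F X).offDiag).card := by
      rw [card_sigma, sum_congr rfl (g := fun _ => 2)]
      · rw [sum_const, smul_eq_mul, mul_comm]
      · intro X hX
        rw [offDiag_card, (mem_filter.1 hX).2]
    rw [e1, ← card_sigma]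
    refine card_le_card_of_injOn (fun e => ⟨insert e.2.1 (insert e.2.2 e.1), e.2⟩) ?_ ?_
    · rintro ⟨Y, i, j⟩ he
      have h := mem_sigma.1 (mem_coe.1 he)
      have h2 := mem_filter.1 h.2
      have h3 := mem_offDiag.1 h2.1
      have hi := mem_qv.1 h3.1
      have hj := mem_qv.1 h3.2.1
      have hpm := pm_two hF h.1 hi.2 hj.2 h2.2
      have hsd : insert i (insert j Y) \ Y = {i, j} := by
        ext x
        simp only [mem_sdiff, mem_insert, mem_singleton]
        constructor
        · rintro ⟨h4 | h4 | h4, h5⟩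
          · exact Or.inl h4
          · exact Or.inr h4
          · exact absurd h4 h5
        · rintro (rfl | rfl)
          · exact ⟨Or.inl rfl, hi.1.2⟩
          · exact ⟨Or.inr (Or.inl rfl), hj.1.2⟩
      refine mem_coe.2 (mem_sigma.2 ⟨mem_filter.2 ⟨?_, ?_⟩, ?_⟩)
      · exact hup _ (hFH h.1) _ (insert_subset hi.1.1 (insert_subset hj.1.1 (hHV _ (hFH h.1))))
          ((subset_insert _ _).trans (subset_insert _ _))
      · show (insert i (insert j Y) \ pm F (insert i (insert j Y))).card = 2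
        rw [hpm, hsd, card_pair h3.2.2]
      · show (i, j) ∈ (insert i (insert j Y) \ pm F (insert i (insert j Y))).offDiag
        rw [hpm, hsd, mem_offDiag]
        exact ⟨by simp, by simp, h3.2.2⟩
    · rintro ⟨Y, i, j⟩ he ⟨Z, i', j'⟩ he' hee
      have h := mem_sigma.1 (mem_coe.1 he)
      have h2 := mem_filter.1 h.2
      have h3 := mem_offDiag.1 h2.1
      have hi := mem_qv.1 h3.1
      have hj := mem_qv.1 h3.2.1
      have g := mem_sigma.1 (mem_coe.1 he')
      have g2 := mem_filter.1 g.2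
      have g3 := mem_offDiag.1 g2.1
      have gi := mem_qv.1 g3.1
      have gj := mem_qv.1 g3.2.1
      have hpm : pm F (insert i (insert j Y)) = Y := pm_two hF h.1 hi.2 hj.2 h2.2
      have gpm : pm F (insert i' (insert j' Z)) = Z := pm_two hF g.1 gi.2 gj.2 g2.2
      simp only [Sigma.mk.injEq] at hee
      obtain ⟨e1, e2⟩ := hee
      have e3 : Y = Z := hpm.symm.trans ((congrArg (pm F) e1).trans gpm)
      subst e3
      have e4 := eq_of_heq e2
      rw [e4]
  have hdis : (H.filter fun X => (X \ pm F X).card = 0).card +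
      (H.filter fun X => (X \ pm F X).card = 1).card +
      (H.filter fun X => (X \ pm F X).card = 2).card ≤ H.card := by
    have d01 : Disjoint (H.filter fun X => (X \ pm F X).card = 0)
        (H.filter fun X => (X \ pm F X).card = 1) := by
      rw [disjoint_left]
      intro X h1 h2
      have := (mem_filter.1 h1).2
      have := (mem_filter.1 h2).2
      omega
    have d2 : Disjoint ((H.filter fun X => (X \ pm F X).card = 0) ∪
        (H.filter fun X => (X \ pm F X).card = 1)) (H.filter fun X => (X \ pm F X).card = 2) := by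
      rw [disjoint_left]
      intro X h1 h2
      have h3 := (mem_filter.1 h2).2
      rcases mem_union.1 h1 with h4 | h4
      · have := (mem_filter.1 h4).2
        omega
      · have := (mem_filter.1 h4).2
        omega
    rw [← card_union_of_disjoint d01, ← card_union_of_disjoint d2]
    refine card_le_card ?_
    exact union_subset (union_subset (filter_subset _ _) (filter_subset _ _)) (filter_subset _ _)
  omega

/-- The pairs of exits that lead to a member give missing lower neighbours. -/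
theorem pair_count {V : Finset α} {F : Finset (Finset α)} (hFV : ∀ Y ∈ F, Y ⊆ V) (hF : UnC F) :
    ∑ Y ∈ F, ((qv F V Y).offDiag.filter fun e => ¬ insert e.1 (insert e.2 Y) ∉ F).card ≤
      ((F ×ˢ V).filter fun e => e.2 ∈ e.1 ∧ e.1.erase e.2 ∉ F).card := by
  rw [← card_sigma]
  refine card_le_card_of_injOn (fun e => (insert e.2.1 (insert e.2.2 e.1), e.2.2)) ?_ ?_
  · rintro ⟨Y, i, j⟩ he
    have h := mem_sigma.1 (mem_coe.1 he)
    have h2 := mem_filter.1 h.2
    have h3 := mem_offDiag.1 h2.1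
    have hi := mem_qv.1 h3.1
    have hj := mem_qv.1 h3.2.1
    have e1 : (insert i (insert j Y)).erase j = insert i Y := by
      rw [insert_comm, erase_insert]
      rw [mem_insert, not_or]
      exact ⟨h3.2.2.symm, hj.1.2⟩
    refine mem_coe.2 (mem_filter.2 ⟨mem_product.2 ⟨not_not.1 h2.2, hj.1.1⟩, ?_, ?_⟩)
    · show j ∈ insert i (insert j Y)
      exact mem_insert_of_mem (mem_insert_self _ _)
    · show (insert i (insert j Y)).erase j ∉ F
      rw [e1]
      exact hi.2
  · rintro ⟨Y, i, j⟩ he ⟨Z, i', j'⟩ he' hee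
    have h := mem_sigma.1 (mem_coe.1 he)
    have h2 := mem_filter.1 h.2
    have h3 := mem_offDiag.1 h2.1
    have hi := mem_qv.1 h3.1
    have hj := mem_qv.1 h3.2.1
    have g := mem_sigma.1 (mem_coe.1 he')
    have g2 := mem_filter.1 g.2
    have g3 := mem_offDiag.1 g2.1
    have gi := mem_qv.1 g3.1
    have gj := mem_qv.1 g3.2.1
    have e1 : (insert i (insert j Y)).erase j = insert i Y := by
      rw [insert_comm, erase_insert]
      rw [mem_insert, not_or]
      exact ⟨h3.2.2.symm, hj.1.2⟩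
    have e2 : (insert i' (insert j' Z)).erase j' = insert i' Z := by
      rw [insert_comm, erase_insert]
      rw [mem_insert, not_or]
      exact ⟨g3.2.2.symm, gj.1.2⟩
    have e3 := congrArg Prod.fst hee
    have e4 := congrArg Prod.snd hee
    simp only at e3 e4
    subst e4
    have e5 : insert i Y = insert i' Z := by rw [← e1, ← e2, e3]
    have k1 : pm F (insert i Y) = Y := pm_one (V := V) hF h.1 hi.2
    have k2 : pm F (insert i' Z) = Z := pm_one (V := V) hF g.1 gi.2
    have e6 : Y = Z := k1.symm.trans ((congrArg (pm F) e5).trans k2)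
    subst e6
    have e7 : i = i' := insert_right_inj hi.1.2 e5
    subst e7
    rfl

/-- The quadratic inequality. -/
theorem quad {V : Finset α} {F H : Finset (Finset α)} (hHV : ∀ Y ∈ H, Y ⊆ V)
    (hup : ∀ Y ∈ H, ∀ Z ⊆ V, Y ⊆ Z → Z ∈ H) (hFH : F ⊆ H) (hF : UnC F) :
    ∑ Y ∈ F, ((((qv F V Y).card : ℤ)) ^ 2 + (qv F V Y).card + 2) ≤
      (((F ×ˢ V).filter fun e => e.2 ∈ e.1 ∧ e.1.erase e.2 ∉ F).card : ℤ) + 2 * (H.card : ℤ) := by
  have h1 := rank_count hHV hup hFH hF
  have h2 := pair_count (fun Y hY => hHV Y (hFH hY)) hF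
  have h3 : ∀ Y ∈ F, ((((qv F V Y).card : ℤ)) ^ 2 - (qv F V Y).card) =
      (((qv F V Y).offDiag.filter fun e => insert e.1 (insert e.2 Y) ∉ F).card : ℤ) +
      (((qv F V Y).offDiag.filter fun e => ¬ insert e.1 (insert e.2 Y) ∉ F).card : ℤ) := by
    intro Y _
    have h4 := card_filter_add_card_filter_not (s := (qv F V Y).offDiag)
      (fun e => insert e.1 (insert e.2 Y) ∉ F)
    rw [offDiag_card] at h4
    have h5 : (qv F V Y).card ≤ (qv F V Y).card * (qv F V Y).card := Nat.le_mul_self _
    have h6 : ((((qv F V Y).offDiag.filter fun e => insert e.1 (insert e.2 Y) ∉ F).card +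
      ((qv F V Y).offDiag.filter fun e => ¬ insert e.1 (insert e.2 Y) ∉ F).card : ℕ) : ℤ) =
      (((qv F V Y).card * (qv F V Y).card - (qv F V Y).card : ℕ) : ℤ) := by
      exact_mod_cast h4
    rw [Nat.cast_sub h5] at h6
    push_cast at h6
    rw [h6]
    ring
  have h4 : ∑ Y ∈ F, ((((qv F V Y).card : ℤ)) ^ 2 + (qv F V Y).card + 2) =
      ∑ Y ∈ F, ((((qv F V Y).card : ℤ)) ^ 2 - (qv F V Y).card) + 2 * ∑ Y ∈ F, ((qv F V Y).card : ℤ)
        + 2 * (F.card : ℤ) := by
    rw [mul_sum, ← sum_add_distrib]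
    have e : (2 : ℤ) * (F.card : ℤ) = ∑ _Y ∈ F, (2 : ℤ) := by
      rw [sum_const, nsmul_eq_mul]
      ring
    rw [e, ← sum_add_distrib]
    refine sum_congr rfl fun Y _ => ?_
    ring
  rw [h4, sum_congr rfl h3, sum_add_distrib]
  have h5 : ((2 * F.card + 2 * ∑ Y ∈ F, (qv F V Y).card +
      ∑ Y ∈ F, ((qv F V Y).offDiag.filter fun e => insert e.1 (insert e.2 Y) ∉ F).card : ℕ) : ℤ) ≤
      ((2 * H.card : ℕ) : ℤ) := by exact_mod_cast h1
  have h6 : ((∑ Y ∈ F, ((qv F V Y).offDiag.filter fun e => ¬ insert e.1 (insert e.2 Y) ∉ F).card :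
      ℕ) : ℤ) ≤ (((F ×ˢ V).filter fun e => e.2 ∈ e.1 ∧ e.1.erase e.2 ∉ F).card : ℤ) := by
    exact_mod_cast h2
  push_cast at h5 h6
  linarith

/-- Two missing lower neighbours per member on average. -/
theorem low_two {V : Finset α} {F H : Finset (Finset α)} (hHV : ∀ Y ∈ H, Y ⊆ V)
    (hup : ∀ Y ∈ H, ∀ Z ⊆ V, Y ⊆ Z → Z ∈ H) (hFH : F ⊆ H) (h : 3 * H.card ≤ 2 ^ V.card) :
    2 * (F.card : ℤ) ≤ (((F ×ˢ V).filter fun e => e.2 ∈ e.1 ∧ e.1.erase e.2 ∉ F).card : ℤ) := by
  have h1 := DFa_P hHV hup hFH (c := 2) (fun x hx => by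
    rcases hv : V.card with _ | m
    · rw [hv, pow_zero] at h
      have h2 : x = 0 := by omega
      rw [h2, Pool.Agent.H51.UC.ei_zero]
      simp
    · rw [hv, pow_succ] at h
      have h2 := Pool.Agent.H51.UC.ei_third m x (by omega)
      have h3 : (2 * Pool.Agent.H51.UC.ei x : ℝ) + x ≤ m * x := by exact_mod_cast h2
      push_cast
      linarith)
  exact_mod_cast h1

/-- First cut: `|F| - |H| / 3 ≤ sg F V`. -/
theorem cut2 {V : Finset α} {F H : Finset (Finset α)} (hHV : ∀ Y ∈ H, Y ⊆ V)
    (hup : ∀ Y ∈ H, ∀ Z ⊆ V, Y ⊆ Z → Z ∈ H) (hFH : F ⊆ H) (hF : UnC F)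
    (h : 3 * H.card ≤ 2 ^ V.card) : 3 * (F.card : ℤ) - (H.card : ℤ) ≤ 3 * sg F V := by
  have h1 := quad hHV hup hFH hF
  have h2 := low_two hHV hup hFH h
  have h3 := DFa_sg F V
  rw [card_bd] at h3
  push_cast at h3
  have h4 : (0 : ℤ) ≤ ∑ Y ∈ F, ((((qv F V Y).card : ℤ)) ^ 2 - 5 * (qv F V Y).card + 6) := by
    refine sum_nonneg fun Y _ => ?_
    have h5 : (((qv F V Y).card : ℤ)) ^ 2 - 5 * (qv F V Y).card + 6 =
        (((qv F V Y).card : ℤ) - 2) * (((qv F V Y).card : ℤ) - 3) := by ring
    rw [h5]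
    rcases le_or_gt ((qv F V Y).card : ℤ) 2 with h6 | h6
    · nlinarith
    · have h7 : (3 : ℤ) ≤ ((qv F V Y).card : ℤ) := by omega
      nlinarith
  have h5 : ∑ Y ∈ F, ((((qv F V Y).card : ℤ)) ^ 2 + (qv F V Y).card + 2) =
      ∑ Y ∈ F, ((((qv F V Y).card : ℤ)) ^ 2 - 5 * (qv F V Y).card + 6) +
      6 * ∑ Y ∈ F, ((qv F V Y).card : ℤ) - 4 * (F.card : ℤ) := by
    have e : (4 : ℤ) * (F.card : ℤ) = ∑ _Y ∈ F, (4 : ℤ) := by
      rw [sum_const, nsmul_eq_mul]
      ring
    rw [e, mul_sum, ← sum_add_distrib, ← sum_sub_distrib]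
    refine sum_congr rfl fun Y _ => ?_
    ring
  rw [h5] at h1
  linarith

/-- Second cut: `2 |F| - 2 |H| / 3 ≤ sg F V`. -/
theorem cutm {V : Finset α} {F H : Finset (Finset α)} (hHV : ∀ Y ∈ H, Y ⊆ V)
    (hup : ∀ Y ∈ H, ∀ Z ⊆ V, Y ⊆ Z → Z ∈ H) (hFH : F ⊆ H) (hF : UnC F)
    (h : 3 * H.card ≤ 2 ^ V.card) : 6 * (F.card : ℤ) - 2 * (H.card : ℤ) ≤ 3 * sg F V := by
  have h1 := cut2 hHV hup hFH hF h
  have h2 := claim2 hHV hup hFH hF h
  linarith

end Pool.Agent.H54.Dense
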