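import Pool.Agent.H28.DF.Cc
import Pool.Agent.H54.Dense.Cplx

/-!
# MP_75f39d_co, DenseFamilies: the linear chain for the constant one eighth

`V` has `n + 3` points and no core inside. Peel three points. For union-closed `F ⊆ A` and `f = 1` if `∅ ∈ F`, else `0`:
* `n` points: `4 (D - f) - ls n + n (1 - f) ≤ sg` (`coreless`);
* `n + 1` points: `9 D - 12 f - (3 ls n + 2 qq n) + 3 n (1 - f) ≤ 3 sg` (`cutm`);
* `n + 2` points: `6 D - 12 f - (3 ls n + 2 qq n + qq (n + 1)) + 3 n (1 - f) ≤ 3 sg` (`cut2`);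
* `n + 3` points, last point dropped: `6 D - 12 f - kk n + 3 n (1 - f) ≤ 3 sg` (`cutm`).
-/

set_option autoImplicit false

namespace Pool.Agent.H54.Dense

open Finset Pool.Agent.H28.DF Pool.Agent.H78.UC

variable {α : Type*} [DecidableEq α]

/-- The constant of the chain. -/
def kk (n : ℕ) : ℕ := 3 * ls n + 2 * qq n + qq (n + 1) + 2 * qq (n + 2)

theorem split_sum {F : Finset (Finset α)} {V : Finset α} {k : α} (hk : k ∈ V) :
    sg (ins F V) (V.erase k) =
      sg (ins F (V.erase k)) (V.erase k) + sg (lk (ins F V) k) (V.erase k) := by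
  unfold sg
  rw [← sum_add_distrib]
  refine sum_congr rfl fun x hx => ?_
  have h3 := DFb_fr F V (mem_erase.1 hx).1
  have h4 := card_ins (F := F) hk
  omega

theorem split_all {F : Finset (Finset α)} {V : Finset α} {k : α} (hk : k ∈ V) :
    sg (ins F V) V = ((lk (ins F V) k).card : ℤ) - ((ins F (V.erase k)).card : ℤ) +
      sg (ins F V) (V.erase k) := by
  have h2 := last_sum (F := F) hk
  have h3 : sg (ins F V) V = (2 * (fr (ins F V) k : ℤ) - ((ins F V).card : ℤ)) +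
      sg (ins F V) (V.erase k) := by
    unfold sg
    exact (add_sum_erase V _ hk).symm
  omega

/-- The cuts for a link. -/
theorem link_cuts {A F : Finset (Finset α)} (hF : UnC F) (hFA : F ⊆ A) {V : Finset α} {k : α}
    (h : 3 * (Hs A V k).card ≤ 2 ^ (V.erase k).card) :
    3 * ((lk (ins F V) k).card : ℤ) - ((Hs A V k).card : ℤ) ≤ 3 * sg (lk (ins F V) k) (V.erase k) ∧
    6 * ((lk (ins F V) k).card : ℤ) - 2 * ((Hs A V k).card : ℤ) ≤
      3 * sg (lk (ins F V) k) (V.erase k) := by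
  have h1 : ∀ Y ∈ Hs A V k, Y ⊆ V.erase k := fun Y hY => mem_powerset.1 (mem_filter.1 hY).1
  have h2 : ∀ Y ∈ Hs A V k, ∀ Z ⊆ V.erase k, Y ⊆ Z → Z ∈ Hs A V k := by
    intro Y hY Z hZ hYZ
    obtain ⟨_, T, hT, hkT, hTY⟩ := mem_filter.1 hY
    exact mem_filter.2 ⟨mem_powerset.2 hZ, T, hT, hkT, hTY.trans (insert_subset_insert k hYZ)⟩
  exact ⟨cut2 h1 h2 (DFb_lk_sub hFA V k) (DFb_lk_unc hF V k) h,
    cutm h1 h2 (DFb_lk_sub hFA V k) (DFb_lk_unc hF V k) h⟩

/-- A set that is not a core has a point with few sets. -/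
theorem exists_peel {A : Finset (Finset α)} {V : Finset α} {n : ℕ} (hc : V.card = n + 1)
    (hV : ¬ IsCore A V) : ∃ k ∈ V, 3 * (Hs A V k).card < 2 ^ n ∧ (Hs A V k).card ≤ qq n ∧
      (V.erase k).card = n := by
  have hne : V.Nonempty := by
    rw [← card_pos, hc]
    exact Nat.succ_pos n
  have h1 : ∃ k ∈ V, 3 * (Hs A V k).card < 2 ^ n := by
    by_contra hcon
    push Not at hcon
    refine hV ⟨hne, fun i hi => ?_⟩
    rw [hc, Nat.add_sub_cancel]
    exact hcon i hi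
  obtain ⟨k, hk, hlt⟩ := h1
  refine ⟨k, hk, hlt, ?_, ?_⟩
  · rw [qq, Nat.le_div_iff_mul_le (by norm_num)]
    omega
  · rw [card_erase_of_mem hk, hc, Nat.add_sub_cancel]

/-- The chain. -/
theorem chain8 {A : Finset (Finset α)} (h0 : ∅ ∈ A) {V : Finset α} (hV : ∀ S ⊆ V, ¬ IsCore A S)
    {n : ℕ} (hn : V.card = n + 3) : ∃ k ∈ V, ∀ F : Finset (Finset α), UnC F → F ⊆ A →
      6 * ((ins F V).card : ℤ) - 12 * (if ∅ ∈ F then 1 else 0) - (kk n : ℤ) +
        3 * (n : ℤ) * (1 - (if ∅ ∈ F then 1 else 0)) ≤ 3 * sg (ins F V) (V.erase k) := by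
  obtain ⟨k3, hk3, l3, q3, c3⟩ := exists_peel hn (hV V (Subset.refl V))
  have s2 : V.erase k3 ⊆ V := erase_subset _ _
  obtain ⟨k2, hk2, l2, q2, c2⟩ := exists_peel c3 (hV _ s2)
  have s1 : (V.erase k3).erase k2 ⊆ V := (erase_subset _ _).trans s2
  obtain ⟨k1, hk1, l1, q1, c1⟩ := exists_peel c2 (hV _ s1)
  have s0 : ((V.erase k3).erase k2).erase k1 ⊆ V := (erase_subset _ _).trans s1
  refine ⟨k3, hk3, fun F hF hFA => ?_⟩
  obtain ⟨-, -, x⟩ := coreless h0 hF hFA _ fun S hS => hV S (hS.trans s0)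
  rw [c1] at x
  have a1 := card_ins (F := F) hk1
  have a2 := card_ins (F := F) hk2
  have a3 := card_ins (F := F) hk3
  have b1 := (link_cuts hF hFA (by rw [c1]; exact l1.le)).2
  have b2 := (link_cuts hF hFA (by rw [c2]; exact l2.le)).1
  have b3 := (link_cuts hF hFA (by rw [c3]; exact l3.le)).2
  have d1 := split_sum (F := F) hk1
  have d2 := split_sum (F := F) hk2
  have d3 := split_sum (F := F) hk3
  have e1 := split_all (F := F) hk1
  have e2 := split_all (F := F) hk2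
  have q1' : ((Hs A ((V.erase k3).erase k2) k1).card : ℤ) ≤ (qq n : ℤ) := by exact_mod_cast q1
  have q2' : ((Hs A (V.erase k3) k2).card : ℤ) ≤ (qq (n + 1) : ℤ) := by exact_mod_cast q2
  have q3' : ((Hs A V k3).card : ℤ) ≤ (qq (n + 2) : ℤ) := by exact_mod_cast q3
  zify at a1 a2 a3
  have hk : (kk n : ℤ) = 3 * (ls n : ℤ) + 2 * (qq n : ℤ) + (qq (n + 1) : ℤ) + 2 * (qq (n + 2) : ℤ) := by
    unfold kk
    push_cast
    ring
  rw [hk]
  linarith

theorem kk_lt {n : ℕ} (hn : 5 ≤ n) : kk n + 12 < 6 * 2 ^ n := by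
  have h1 := ls_le hn
  have h2 := qq_le n
  have h3 := qq_le (n + 1)
  have h4 := qq_le (n + 2)
  have h5 : 2 ^ (n + 1) = 2 * 2 ^ n := by rw [pow_succ]; ring
  have h6 : 2 ^ (n + 2) = 4 * 2 ^ n := by rw [pow_add]; ring
  unfold kk
  omega

end Pool.Agent.H54.Dense
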