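import Pool.Agent.H59.SG.Few

/-!
# MP_75f39d_co: families with many members for their number of generators

`A` union-closed, separating, not a power set, `G ⊆ A` generates `A` and `2 ^ |G| < 8 |A|`.  If every point
lies in at most three members of `G` that are not singletons, the theorem on at most three generators
applies.  Otherwise some point `x` lies in at least four members of `G`; the members without `x` are
unions of the other members of `G`, so there are at most `2 ^ (|G| - 4) < |A| / 2` of them.
-/

set_option autoImplicit false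

namespace Pool.Agent.H54.Dense

open Finset

variable {α : Type*} [DecidableEq α]

/-- The members that avoid `x` are unions of generators that avoid `x`. -/
theorem avoid_le {A G : Finset (Finset α)} (hgen : ∀ B ∈ A, ∃ F ⊆ G, F.sup id = B) (x : α) :
    (A.filter fun S => x ∉ S).card ≤ 2 ^ (G.filter fun B => x ∉ B).card := by
  rw [← card_powerset]
  refine card_le_card_of_injOn (fun S => G.filter fun B => B ⊆ S) ?_ ?_
  · intro S hS
    rw [mem_coe, mem_filter] at hS
    rw [mem_coe, mem_powerset]
    intro B hB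
    rw [mem_filter] at hB ⊢
    exact ⟨hB.1, fun h => hS.2 (hB.2 h)⟩
  · intro S hS S' hS' h
    rw [mem_coe, mem_filter] at hS hS'
    have key : ∀ S ∈ A, ∀ S' : Finset α, (G.filter fun B => B ⊆ S) = (G.filter fun B => B ⊆ S') →
        S ⊆ S' := by
      intro S hS S' h
      obtain ⟨F, hF, hFS⟩ := hgen S hS
      rw [← hFS]
      refine Finset.sup_le fun B hB => ?_
      have h1 : B ∈ G.filter fun B => B ⊆ S := by
        rw [mem_filter]
        refine ⟨hF hB, ?_⟩
        rw [← hFS]
        exact Finset.le_sup (f := id) hB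
      rw [h, mem_filter] at h1
      exact h1.2
    exact Subset.antisymm (key S hS.1 S' h) (key S' hS'.1 S h.symm)

/-- Families with more than `2 ^ |G| / 8` members. -/
theorem gen_dense (A G : Finset (Finset α)) (hne : A.Nonempty)
    (hu : ∀ X ∈ A, ∀ Y ∈ A, X ∪ Y ∈ A)
    (hsep : ∀ x ∈ A.sup id, ∀ y ∈ A.sup id, x ≠ y → ∃ S ∈ A, (x ∈ S ∧ y ∉ S) ∨ (y ∈ S ∧ x ∉ S))
    (hpow : A ≠ (A.sup id).powerset) (hsub : G ⊆ A) (hgen : ∀ B ∈ A, ∃ F ⊆ G, F.sup id = B)
    (hd : 2 ^ G.card < 8 * A.card) :
    ∃ x ∈ A.sup id, A.card < 2 * (A.filter fun S => x ∈ S).card := by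
  by_cases h : ∀ x ∈ A.sup id, (G.filter fun B => x ∈ B ∧ B ≠ {x}).card ≤ 3
  · exact H59SG.few A G hne hu hsep hpow hsub hgen h
  · push Not at h
    obtain ⟨x, hx, h4⟩ := h
    refine ⟨x, hx, ?_⟩
    have h5 : (G.filter fun B => x ∈ B ∧ B ≠ {x}).card ≤ (G.filter fun B => x ∈ B).card :=
      card_le_card (monotone_filter_right _ fun B _ hB => hB.1)
    have h6 := card_filter_add_card_filter_not (s := G) (fun B => x ∈ B)
    have h7 := card_filter_add_card_filter_not (s := A) (fun S => x ∈ S)
    have h8 := avoid_le (A := A) (G := G) hgen x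
    have h9 : 2 ^ (4 + (G.filter fun B => x ∉ B).card) ≤ 2 ^ G.card :=
      Nat.pow_le_pow_right (by norm_num) (by omega)
    rw [pow_add] at h9
    omega

end Pool.Agent.H54.Dense
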